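import Pool.Agent.helper237_G5.Assemble
import Pool.Agent.helper237_G5.run.All
import Pool.Agent.helper237_G5.T_closure
import Pool.Agent.helper237_G5.T_prob
import Pool.Agent.helper237_G5.T_compact
import Pool.Agent.helper237_G5.T_lab
import Pool.Agent.helper237_G5.T_cmp
import Pool.Agent.helper237_G5.T_clusters
import Pool.Agent.helper237_G5.T_emb
import Pool.Agent.helper237_G5.T_main
import Pool.Agent.helper237_G5.T_fail
import Pool.Agent.helper237_G5.T_move
import Pool.Agent.helper237_G5.T_mask
import Pool.Agent.helper237_G5.T_ins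
import Pool.Agent.helper237_G5.T_sum
import Pool.Agent.helper237_G5.T_three
import Pool.Agent.helper237_G5.T_mass
import Pool.Agent.helper237_G5.T_pack
import Pool.Agent.helper237_G5.T_sound
import Pool.Agent.helper237_G5.T_tree
import Pool.Agent.helper237_G5.T_clk
import Pool.Agent.helper237_G5.T_flow
import Pool.Agent.helper237_G5.T_clustersP
import Pool.Agent.helper237_G5.T_exists
import Pool.Agent.helper237_G5.T_unique

/-!
# The critical density of the zero-temperature Glauber dynamics on the 5-regular tree is below 1/2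
-/

namespace Pool.Agent.Results.MP_05ea9f_pr.FiveRegularTree

open MeasureTheory ProbabilityTheory Filter Topology Pool.Agent.helper237_G5

theorem result :
    (∃ (V : Type) (G : SimpleGraph V) (_ : G.LocallyFinite), G.IsTree ∧ ∀ v, G.degree v = 5) ∧
    ∀ (V : Type) (G : SimpleGraph V) [G.LocallyFinite], G.IsTree → (∀ v, G.degree v = 5) → ∀ o : V,
      (∀ p : ℝ, 0 ≤ p → p ≤ 1 → ∃ (Ω : Type) (_ : MeasurableSpace Ω) (μ : Measure Ω) (init : V → Ω → Bool)
        (rings : V → Ω → Set ℝ) (σ : Ω → ℝ → V → Bool), IsGlauber G p μ init rings σ) ∧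
      (∀ (p : ℝ) (Ω Ω' : Type) [MeasurableSpace Ω] [MeasurableSpace Ω'] (μ : Measure Ω) (μ' : Measure Ω')
        (init : V → Ω → Bool) (rings : V → Ω → Set ℝ) (σ : Ω → ℝ → V → Bool)
        (init' : V → Ω' → Bool) (rings' : V → Ω' → Set ℝ) (σ' : Ω' → ℝ → V → Bool),
        IsGlauber G p μ init rings σ → IsGlauber G p μ' init' rings' σ' →
        μ (Fminus σ o) = μ' (Fminus σ' o)) ∧
      (∀ (Ω : Type) [MeasurableSpace Ω] (p : ℝ) (μ : Measure Ω) (init : V → Ω → Bool)
        (rings : V → Ω → Set ℝ) (σ : Ω → ℝ → V → Bool), (2047/4096 : ℝ) ≤ p → p ≤ 1 →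
        IsGlauber G p μ init rings σ → 0 < μ (Fplus σ o)) ∧
      pc G o ≤ 2047/4096 ∧ pc G o ≠ 1/2 := by
  have hsound : S_sound := t_sound t_fail t_move t_mask t_ins t_sum t_three t_mass t_packIns t_packSum t_packMask
    t_packFail t_packMove
  have hmain : S_main := t_main t_closure t_prob t_compact t_lab t_cmp t_clusters t_emb
  have hfin : S_final (2047/4096) := final_of run_0 run_C run_all hsound hmain
  refine ⟨t_tree, ?_⟩
  intro V G _ hT hd o
  obtain ⟨h1, _, h3⟩ := hfin V G hT hd o
  refine ⟨t_exists t_clocks t_flow t_clustersP V G hd hT.1, ?_, h1, h3, ?_⟩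
  · intro p Ω Ω' _ _ μ μ' init rings σ init' rings' σ' h h'
    exact t_unique_measure G hd hT.1 o p h h'
  intro h
  rw [h] at h3
  norm_num at h3

end Pool.Agent.Results.MP_05ea9f_pr.FiveRegularTree
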